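import Pool.Agent.Run7.h676.NI.Iface

/-!
# Piece FIT: the Fitting subgroup of a soluble normal subgroup
-/

set_option autoImplicit false

open scoped commutatorElement

namespace Pool.Agent.Run7.h267.NI

open Pool.Agent.Run7.h676.NI

theorem t_FIT : S_FIT := by
  intro Γ _ _ L hL hsol
  classical
  obtain ⟨F, hFmem, hFmax⟩ := (Set.toFinite {F : Subgroup Γ | F ≤ L ∧ F.Normal ∧
    Group.IsNilpotent F}).exists_maximal ⟨⊥, bot_le, inferInstance, inferInstance⟩
  obtain ⟨hFL, hFn, hFnil⟩ := hFmem
  refine ⟨F, hFL, hFn, hFnil, ?_⟩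
  by_contra hcon
  push Not at hcon
  obtain ⟨x, hxL, hxc, hxF⟩ := hcon
  set C : Subgroup Γ := L ⊓ Subgroup.centralizer (F : Set Γ) with hC
  have hCn : C.Normal := by
    have := hL
    have := hFn
    infer_instance
  have hxC : x ∈ C := by
    refine ⟨hxL, Subgroup.mem_centralizer_iff.2 fun y hy => ?_⟩
    exact (hxc y hy).symm
  obtain ⟨T, hTmem, hTmin⟩ := (Set.toFinite {T : Subgroup Γ | T ≤ C ∧ T.Normal ∧
    ¬ T ≤ F}).exists_minimal ⟨C, le_refl _, hCn, fun h => hxF (h hxC)⟩
  obtain ⟨hTC, hTn, hTF⟩ := hTmem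
  have hTL : T ≤ L := hTC.trans inf_le_left
  have hTcent : ∀ t ∈ T, ∀ y ∈ F, t * y = y * t := by
    intro t ht y hy
    have := Subgroup.mem_centralizer_iff.1 (hTC ht).2
    exact (this y hy).symm
  have hTsol : Group.IsSolvable T :=
    Group.isSolvable_of_isSolvable_injective (Subgroup.inclusion_injective hTL)
  have hTne : T ≠ ⊥ := fun h => hTF (h ▸ bot_le)
  have hlt : ⁅T, T⁆ < T := by
    have : Nontrivial T := (Subgroup.nontrivial_iff_ne_bot T).2 hTne
    have h1 := Group.IsSolvable.commutator_lt_top_of_nontrivial T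
    refine lt_of_le_of_ne (Subgroup.commutator_le_self T) fun h => ?_
    apply h1.ne
    rw [← Subgroup.map_subtype_commutator T] at h
    apply Subgroup.map_injective T.subtype_injective
    rw [h, ← MonoidHom.range_eq_map, Subgroup.range_subtype]
  have hTT : ⁅T, T⁆ ≤ F := by
    by_contra h
    have := hTn
    exact absurd (hTmin ⟨hlt.le.trans hTC, Subgroup.commutator_normal T T, h⟩ hlt.le) (not_le_of_gt hlt)
  have hTnil : Group.IsNilpotent T := by
    rw [Subgroup.nilpotent_iff_lowerCentralSeries]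
    refine ⟨2, ?_⟩
    apply Subgroup.lowerCentralSeries_succ_eq_bot
    rw [Subgroup.top_lowerCentralSeries_one, commutator_def, Subgroup.commutator_le]
    intro a _ b _
    rw [Subgroup.mem_center_iff]
    intro c
    apply Subtype.ext
    have hab : ((⁅a, b⁆ : T) : Γ) ∈ F := by
      apply hTT
      exact Subgroup.commutator_mem_commutator a.2 b.2
    exact hTcent c.1 c.2 _ hab
  have hcomm : ∀ (t : T) (f : F), Commute (T.subtype t) (F.subtype f) :=
    fun t f => hTcent t.1 t.2 f.1 f.2
  have hrange := MonoidHom.noncommCoprod_range T.subtype F.subtype hcomm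
  rw [Subgroup.range_subtype, Subgroup.range_subtype] at hrange
  have hnil : Group.IsNilpotent ((MonoidHom.noncommCoprod T.subtype F.subtype hcomm).range) :=
    Group.nilpotent_of_surjective _ (MonoidHom.rangeRestrict_surjective _)
  rw [hrange] at hnil
  have hle : T ⊔ F ≤ F := by
    apply hFmax ⟨sup_le hTL hFL, ?_, hnil⟩ le_sup_right
    have := hTn
    have := hFn
    infer_instance
  exact hTF (le_sup_left.trans hle)

end Pool.Agent.Run7.h267.NI
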